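import Mathlib

/-!
# Systems of fibres with upward domination

Abstract part of the proof that graphs with a critical vertex of small degree have large schemes.

`E I` is an equivalence relation on the vertices for every finite set `I` of colours, monotone in `I`.
A system `(M, Y)` consists of a set `M` of colours and a set `Y` of vertices such that every colour of
`M` occurs in `Y` and every `x` in `Y` with colour `i` in `M` has, for every other colour `j` in `M` with
`r i ≤ r j`, a partner `y` of colour `j` in `Y` with `E {i, j} x y`.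
-/

set_option autoImplicit false
set_option linter.unusedSectionVars false

namespace Pool.Agent.Helper54.Scheme

open Relation

section

variable {V ι : Type} [DecidableEq V] [DecidableEq ι]

/-- The properties of the family of relations. -/
structure Rel (E : Finset ι → V → V → Prop) : Prop where
  refl : ∀ I x, E I x x
  symm : ∀ I x y, E I x y → E I y x
  trans : ∀ I x y z, E I x y → E I y z → E I x z
  mono : ∀ I J x y, I ⊆ J → E I x y → E J x y

/-- A system. -/
structure Sys (E : Finset ι → V → V → Prop) (c : V → ι) (r : ι → ℕ) (M : Finset ι)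
    (Y : Finset V) : Prop where
  ne : ∀ i ∈ M, ∃ x ∈ Y, c x = i
  up : ∀ i ∈ M, ∀ j ∈ M, i ≠ j → r i ≤ r j → ∀ x ∈ Y, c x = i → ∃ y ∈ Y, c y = j ∧ E {i, j} x y

/-- One step in the graph of the system. -/
def Step (E : Finset ι → V → V → Prop) (c : V → ι) (M : Finset ι) (Y : Finset V) (x y : V) : Prop :=
  x ∈ Y ∧ y ∈ Y ∧ c x ∈ M ∧ c y ∈ M ∧ c x ≠ c y ∧ E {c x, c y} x y

variable {E : Finset ι → V → V → Prop} {c : V → ι} {r : ι → ℕ}

theorem Step.symm (hE : Rel E) {M : Finset ι} {Y : Finset V} {x y : V} (h : Step E c M Y x y) :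
    Step E c M Y y x := by
  obtain ⟨h1, h2, h3, h4, h5, h6⟩ := h
  refine ⟨h2, h1, h4, h3, h5.symm, ?_⟩
  rw [Finset.pair_comm]
  exact hE.symm _ _ _ h6

theorem steps_symm (hE : Rel E) {M : Finset ι} {Y : Finset V} {x y : V}
    (h : ReflTransGen (Step E c M Y) x y) : ReflTransGen (Step E c M Y) y x := by
  induction h with
  | refl => exact ReflTransGen.refl
  | tail _ h2 ih => exact ReflTransGen.head (h2.symm hE) ih

/-- A pair of colours which merges two classes of the top fibre. -/
theorem exists_merge (hE : Rel E) {M : Finset ι} {Y : Finset V} (hS : Sys E c r M Y) {top : ι}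
    (htop : top ∈ M) (hmax : ∀ i ∈ M, r i ≤ r top) {I : Finset ι} (hI : top ∈ I) {x0 x1 : V}
    (hx1 : x1 ∈ Y) (hc0 : c x0 = top) (hc1 : c x1 = top)
    (hst : ReflTransGen (Step E c M Y) x0 x1) (hne : ¬ E I x0 x1) :
    ∃ j ∈ M, ∃ l ∈ M, ∃ x ∈ Y, c x = top ∧ ∃ x' ∈ Y, c x' = top ∧
      E (I ∪ {j, l}) x x' ∧ ¬ E I x x' := by
  by_contra hcon
  push Not at hcon
  apply hne
  have key : ∀ z, ReflTransGen (Step E c M Y) x0 z →
      ∀ x ∈ Y, c x = top → E (insert (c z) I) z x → E I x0 x := by
    intro z hz
    induction hz with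
    | refl =>
      intro x _ _ h
      rw [hc0, Finset.insert_eq_of_mem hI] at h
      exact h
    | tail _ h2 ih =>
      rename_i z w _
      intro x' hx' hcx' hw
      obtain ⟨hzY, hwY, hzM, hwM, hzw, hEzw⟩ := h2
      have hex : ∃ x ∈ Y, c x = top ∧ E (insert (c z) I) z x := by
        by_cases hzt : c z = top
        · exact ⟨z, hzY, hzt, hE.refl _ _⟩
        · obtain ⟨y, hy, hcy, hEy⟩ := hS.up (c z) hzM top htop hzt (hmax _ hzM) z hzY rfl
          refine ⟨y, hy, hcy, hE.mono _ _ _ _ ?_ hEy⟩
          intro a ha
          simp only [Finset.mem_insert, Finset.mem_singleton] at ha ⊢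
          rcases ha with rfl | rfl
          · exact Or.inl rfl
          · exact Or.inr hI
      obtain ⟨x, hxY, hcx, hEx⟩ := hex
      have h1 : E I x0 x := ih x hxY hcx hEx
      have h2 : E (I ∪ {c z, c w}) x x' := by
        have e1 : E (I ∪ {c z, c w}) x z := by
          refine hE.mono _ _ _ _ ?_ (hE.symm _ _ _ hEx)
          intro a ha
          simp only [Finset.mem_insert, Finset.mem_union, Finset.mem_singleton] at ha ⊢
          tauto
        have e2 : E (I ∪ {c z, c w}) z w := hE.mono _ _ _ _ Finset.subset_union_right hEzw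
        have e3 : E (I ∪ {c z, c w}) w x' := by
          refine hE.mono _ _ _ _ ?_ hw
          intro a ha
          simp only [Finset.mem_insert, Finset.mem_union, Finset.mem_singleton] at ha ⊢
          tauto
        exact hE.trans _ _ _ _ e1 (hE.trans _ _ _ _ e2 e3)
      exact hE.trans _ _ _ _ h1 (hcon _ hzM _ hwM x hxY hcx x' hx' hcx' h2)
  exact key x1 hst x1 hx1 hc1 (hE.refl _ _)

/-- Connected sets of colours of bounded size. -/
theorem connected_aux (hE : Rel E) {M : Finset ι} {Y : Finset V} (hS : Sys E c r M Y) {top : ι}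
    (htop : top ∈ M) (hmax : ∀ i ∈ M, r i ≤ r top)
    (hconn : ∀ x ∈ Y, c x = top → ∀ y ∈ Y, c y = top → ReflTransGen (Step E c M Y) x y) :
    ∀ (n : ℕ) (I : Finset ι), I ⊆ M → top ∈ I →
      (∀ T : Finset V, T ⊆ Y.filter (fun x => c x = top) →
        (∀ x ∈ T, ∀ y ∈ T, x ≠ y → ¬ E I x y) → T.card ≤ n + 1) →
      ∃ I' ⊆ M, top ∈ I' ∧ I'.card ≤ I.card + 2 * n ∧
        ∀ x ∈ Y, c x = top → ∀ y ∈ Y, c y = top → E I' x y := by
  intro n
  induction n with
  | zero =>
    intro I hIM hI hT
    refine ⟨I, hIM, hI, by omega, ?_⟩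
    intro x hx hcx y hy hcy
    by_contra hne
    have hxy : x ≠ y := fun h => hne (h ▸ hE.refl _ _)
    have := hT {x, y} (by
      intro z hz
      simp only [Finset.mem_insert, Finset.mem_singleton] at hz
      rcases hz with rfl | rfl
      · exact Finset.mem_filter.2 ⟨hx, hcx⟩
      · exact Finset.mem_filter.2 ⟨hy, hcy⟩) (by
      intro a ha b hb hab
      simp only [Finset.mem_insert, Finset.mem_singleton] at ha hb
      rcases ha with rfl | rfl <;> rcases hb with rfl | rfl
      · exact absurd rfl hab
      · exact hne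
      · exact fun h => hne (hE.symm _ _ _ h)
      · exact absurd rfl hab)
    rw [Finset.card_pair hxy] at this
    omega
  | succ n ih =>
    intro I hIM hI hT
    by_cases hall : ∀ x ∈ Y, c x = top → ∀ y ∈ Y, c y = top → E I x y
    · exact ⟨I, hIM, hI, by omega, hall⟩
    · push Not at hall
      obtain ⟨x0, hx0, hc0, x1, hx1, hc1, hne⟩ := hall
      obtain ⟨j, hj, l, hl, x, hx, hcx, x', hx', hcx', hE1, hE2⟩ :=
        exists_merge hE hS htop hmax hI hx1 hc0 hc1 (hconn x0 hx0 hc0 x1 hx1 hc1) hne
      obtain ⟨I', h1, h2, h3, h4⟩ := ih (I ∪ {j, l}) (by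
        intro a ha
        simp only [Finset.mem_insert, Finset.mem_union, Finset.mem_singleton] at ha
        rcases ha with ha | rfl | rfl
        · exact hIM ha
        · exact hj
        · exact hl) (Finset.mem_union_left _ hI) (by
        intro T hTF hTi
        by_contra hcard
        push Not at hcard
        have hTi' : ∀ a ∈ T, ∀ b ∈ T, a ≠ b → ¬ E I a b := fun a ha b hb hab h =>
          hTi a ha b hb hab (hE.mono _ _ _ _ Finset.subset_union_left h)
        have hle := hT T hTF hTi'
        -- every element of the top fibre is equivalent to an element of `T`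
        have hmaxT : ∀ y ∈ Y, c y = top → ∃ t ∈ T, E I y t := by
          intro y hy hcy
          by_contra hno
          push Not at hno
          have hyT : y ∉ T := fun h => hno y h (hE.refl _ _)
          have := hT (insert y T) (by
            intro z hz
            rcases Finset.mem_insert.1 hz with rfl | hz
            · exact Finset.mem_filter.2 ⟨hy, hcy⟩
            · exact hTF hz) (by
            intro a ha b hb hab
            rcases Finset.mem_insert.1 ha with ha' | ha'
            · rcases Finset.mem_insert.1 hb with hb' | hb'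
              · exact absurd (ha'.trans hb'.symm) hab
              · rw [ha']
                exact hno b hb'
            · rcases Finset.mem_insert.1 hb with hb' | hb'
              · rw [hb']
                exact fun h => hno a ha' (hE.symm _ _ _ h)
              · exact hTi' a ha' b hb' hab)
          rw [Finset.card_insert_of_notMem hyT] at this
          omega
        obtain ⟨t, ht, hxt⟩ := hmaxT x hx hcx
        obtain ⟨t', ht', hxt'⟩ := hmaxT x' hx' hcx'
        have htt : E (I ∪ {j, l}) t t' := by
          have e1 := hE.mono _ (I ∪ {j, l}) _ _ Finset.subset_union_left (hE.symm _ _ _ hxt)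
          have e2 := hE.mono _ (I ∪ {j, l}) _ _ Finset.subset_union_left hxt'
          exact hE.trans _ _ _ _ e1 (hE.trans _ _ _ _ hE1 e2)
        by_cases heq : t = t'
        · apply hE2
          rw [← heq] at hxt'
          exact hE.trans _ _ _ _ hxt (hE.symm _ _ _ hxt')
        · exact hTi t ht t' ht' heq htt)
      refine ⟨I', h1, h2, ?_, h4⟩
      have hc : (I ∪ {j, l}).card ≤ I.card + 2 := by
        refine (Finset.card_union_le _ _).trans ?_
        have : ({j, l} : Finset ι).card ≤ 2 := Finset.card_le_two
        omega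
      omega

/-- Connected sets of colours of bounded size. -/
theorem connected_set (hE : Rel E) {M : Finset ι} {Y : Finset V} (hS : Sys E c r M Y) {top : ι}
    (htop : top ∈ M) (hmax : ∀ i ∈ M, r i ≤ r top)
    (hconn : ∀ x ∈ Y, c x = top → ∀ y ∈ Y, c y = top → ReflTransGen (Step E c M Y) x y) :
    ∃ I ⊆ M, top ∈ I ∧ I.card + 1 ≤ 2 * (Y.filter (fun x => c x = top)).card ∧
        ∀ x ∈ Y, c x = top → ∀ y ∈ Y, c y = top → E I x y := by
  have hne : 0 < (Y.filter (fun x => c x = top)).card := by
    obtain ⟨x, hx, hcx⟩ := hS.ne top htop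
    exact Finset.card_pos.2 ⟨x, Finset.mem_filter.2 ⟨hx, hcx⟩⟩
  obtain ⟨I, h1, h2, h3, h4⟩ := connected_aux hE hS htop hmax hconn
    ((Y.filter (fun x => c x = top)).card - 1) {top} (by simpa using htop) (by simp) (by
      intro T hT _
      have := Finset.card_le_card hT
      omega)
  refine ⟨I, h1, h2, ?_, h4⟩
  rw [Finset.card_singleton] at h3
  omega

/-- The main process: many blocks. -/
theorem process (hE : Rel E) (τ : ℕ) : ∀ (N : ℕ) (M : Finset ι) (Y : Finset V),
    M.card + Y.card ≤ N → Sys E c r M Y → (∀ i ∈ M, (Y.filter (fun x => c x = i)).card ≤ τ) →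
    ∃ (A : Finset V) (J : V → Finset ι), A ⊆ Y ∧ (∀ x ∈ A, c x ∈ J x ∧ J x ⊆ M) ∧
      (∀ x ∈ A, ∀ y ∈ A, x ≠ y → Disjoint (J x) (J y) ∧ E (J x ∪ J y) x y) ∧
      M.card + A.card ≤ 2 * τ * A.card := by
  classical
  intro N
  induction N with
  | zero =>
    intro M Y hN _ _
    have hM : M = ∅ := Finset.card_eq_zero.1 (by omega)
    refine ⟨∅, fun _ => ∅, Finset.empty_subset _, by simp, by simp, by simp [hM]⟩
  | succ N ih =>
    intro M Y hN hS hτ
    by_cases hM : M = ∅
    · refine ⟨∅, fun _ => ∅, Finset.empty_subset _, by simp, by simp, by simp [hM]⟩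
    have hMne : M.Nonempty := Finset.nonempty_iff_ne_empty.2 hM
    obtain ⟨top, htop, hmax⟩ := Finset.exists_max_image M r hMne
    obtain ⟨bot, hbot, hmin⟩ := Finset.exists_min_image M r hMne
    obtain ⟨z0, hz0, hcz0⟩ := hS.ne bot hbot
    by_cases hall : ∀ y ∈ Y, c y = top → ReflTransGen (Step E c M Y) z0 y
    · -- remove a connected set of colours
      have hconn : ∀ x ∈ Y, c x = top → ∀ y ∈ Y, c y = top →
          ReflTransGen (Step E c M Y) x y := fun x hx hcx y hy hcy =>
        (steps_symm hE (hall x hx hcx)).trans (hall y hy hcy)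
      obtain ⟨I, hIM, htI, hIc, hIE⟩ := connected_set hE hS htop hmax hconn
      have hMI : M \ I ⊆ M := Finset.sdiff_subset
      have hS' : Sys E c r (M \ I) Y := by
        refine ⟨fun i hi => hS.ne i (hMI hi), ?_⟩
        intro i hi j hj
        exact hS.up i (hMI hi) j (hMI hj)
      have hcard : (M \ I).card < M.card := by
        refine Finset.card_lt_card ⟨hMI, ?_⟩
        intro h
        exact (Finset.mem_sdiff.1 (h htop)).2 htI
      obtain ⟨A, J, hA, hJ, hAJ, hcnt⟩ := ih (M \ I) Y (by omega) hS' (fun i hi => hτ i (hMI hi))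
      obtain ⟨xt, hxt, hcxt⟩ := hS.ne top htop
      have hxtA : xt ∉ A := by
        intro h
        have h1 := (hJ xt h).2 (hJ xt h).1
        rw [hcxt] at h1
        exact (Finset.mem_sdiff.1 h1).2 htI
      have hup : ∀ x ∈ A, x ≠ xt ∧ Disjoint (J x) I ∧ E (J x ∪ I) x xt := by
        intro x hx
        have hne : x ≠ xt := fun h => hxtA (h ▸ hx)
        have hcx : c x ∈ M \ I := (hJ x hx).2 (hJ x hx).1
        have hcxt' : c x ≠ top := by
          intro h
          rw [h] at hcx
          exact (Finset.mem_sdiff.1 hcx).2 htI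
        refine ⟨hne, ?_, ?_⟩
        · rw [Finset.disjoint_left]
          intro a ha haI
          exact (Finset.mem_sdiff.1 ((hJ x hx).2 ha)).2 haI
        · obtain ⟨y, hy, hcy, hEy⟩ := hS.up (c x) (hMI hcx) top htop hcxt' (hmax _ (hMI hcx)) x
            (hA hx) rfl
          have e1 : E (J x ∪ I) x y := by
            refine hE.mono _ _ _ _ ?_ hEy
            intro a ha
            simp only [Finset.mem_insert, Finset.mem_singleton] at ha
            rcases ha with rfl | rfl
            · exact Finset.mem_union_left _ (hJ x hx).1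
            · exact Finset.mem_union_right _ htI
          have e2 : E (J x ∪ I) y xt :=
            hE.mono _ _ _ _ Finset.subset_union_right (hIE y hy hcy xt hxt hcxt)
          exact hE.trans _ _ _ _ e1 e2
      refine ⟨insert xt A, Function.update J xt I, ?_, ?_, ?_, ?_⟩
      · intro x hx
        rcases Finset.mem_insert.1 hx with rfl | hx
        · exact hxt
        · exact hA hx
      · intro x hx
        rcases Finset.mem_insert.1 hx with rfl | hx
        · rw [Function.update_self]
          exact ⟨hcxt ▸ htI, hIM⟩
        · rw [Function.update_of_ne (hup x hx).1]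
          exact ⟨(hJ x hx).1, (hJ x hx).2.trans hMI⟩
      · intro x hx y hy hxy
        rcases Finset.mem_insert.1 hx with hx' | hx'
        · rcases Finset.mem_insert.1 hy with hy' | hy'
          · exact absurd (hx'.trans hy'.symm) hxy
          · rw [hx', Function.update_self, Function.update_of_ne (hup y hy').1]
            obtain ⟨_, h2, h3⟩ := hup y hy'
            refine ⟨h2.symm, ?_⟩
            rw [Finset.union_comm]
            exact hE.symm _ _ _ h3
        · rcases Finset.mem_insert.1 hy with hy' | hy'
          · rw [hy', Function.update_self, Function.update_of_ne (hup x hx').1]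
            exact (hup x hx').2
          · rw [Function.update_of_ne (hup x hx').1, Function.update_of_ne (hup y hy').1]
            exact hAJ x hx' y hy' hxy
      · rw [Finset.card_insert_of_notMem hxtA]
        have h1 : M.card ≤ (M \ I).card + I.card := by
          have := Finset.card_le_card_sdiff_add_card (s := M) (t := I)
          omega
        have h2 := hτ top htop
        nlinarith
    · -- pass to a component
      push Not at hall
      obtain ⟨y1, hy1, hcy1, hny1⟩ := hall
      let Y' := Y.filter (fun y => ReflTransGen (Step E c M Y) z0 y)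
      have hY' : Y' ⊆ Y := Finset.filter_subset _ _
      have hlt : Y'.card < Y.card := by
        refine Finset.card_lt_card ⟨hY', ?_⟩
        intro h
        exact hny1 (Finset.mem_filter.1 (h hy1)).2
      have hS' : Sys E c r M Y' := by
        constructor
        · intro i hi
          by_cases hib : i = bot
          · exact ⟨z0, Finset.mem_filter.2 ⟨hz0, ReflTransGen.refl⟩, hcz0.trans hib.symm⟩
          · obtain ⟨y, hy, hcy, hEy⟩ := hS.up bot hbot i hi (fun h => hib h.symm) (hmin i hi) z0
              hz0 hcz0
            refine ⟨y, Finset.mem_filter.2 ⟨hy, ReflTransGen.single ?_⟩, hcy⟩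
            refine ⟨hz0, hy, hcz0.symm ▸ hbot, hcy.symm ▸ hi, ?_, ?_⟩
            · rw [hcz0, hcy]
              exact fun h => hib h.symm
            · rw [hcz0, hcy]
              exact hEy
        · intro i hi j hj hij hr x hx hcx
          obtain ⟨hxY, hxs⟩ := Finset.mem_filter.1 hx
          obtain ⟨y, hy, hcy, hEy⟩ := hS.up i hi j hj hij hr x hxY hcx
          refine ⟨y, Finset.mem_filter.2 ⟨hy, hxs.tail ?_⟩, hcy, hEy⟩
          refine ⟨hxY, hy, hcx.symm ▸ hi, hcy.symm ▸ hj, ?_, ?_⟩
          · rw [hcx, hcy]
            exact hij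
          · rw [hcx, hcy]
            exact hEy
      obtain ⟨A, J, hA, hJ, hAJ, hcnt⟩ := ih M Y' (by omega) hS' (by
        intro i hi
        refine le_trans (Finset.card_le_card ?_) (hτ i hi)
        intro x hx
        obtain ⟨h1, h2⟩ := Finset.mem_filter.1 hx
        exact Finset.mem_filter.2 ⟨hY' h1, h2⟩)
      exact ⟨A, J, hA.trans hY', hJ, hAJ, hcnt⟩

end

end Pool.Agent.Helper54.Scheme
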