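import Mathlib
import Pool.Agent.Helper54.Scheme.Abstract

/-!
# Fibres with at most two elements

For fibres of size at most two (all of the same rank) the colours split into disjoint connected sets of
at most three colours and a set of colours with a consistent transversal.
-/

set_option autoImplicit false
set_option linter.unusedSectionVars false

namespace Pool.Agent.Helper54.Scheme

open Relation

section

variable {V ι : Type} [DecidableEq V] [DecidableEq ι]
variable {E : Finset ι → V → V → Prop} {c : V → ι} {r : ι → ℕ}

/-- The decomposition of a class of fibres of size at most two. -/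
theorem two_class (hE : Rel E) (Y : Finset V) (ρ : ℕ) : ∀ (N : ℕ) (D : Finset ι), D.card ≤ N →
    Sys E c r D Y → (∀ i ∈ D, r i = ρ) → (∀ i ∈ D, (Y.filter (fun x => c x = i)).card ≤ 2) →
    ∃ (Ac As : Finset V) (J : V → Finset ι), Ac ⊆ Y ∧ As ⊆ Y ∧ Disjoint Ac As ∧
      (∀ x ∈ Ac, c x ∈ J x ∧ J x ⊆ D ∧ ∀ z ∈ Y, c z ∈ J x → E (J x) z x) ∧
      (∀ x ∈ As, J x = {c x} ∧ c x ∈ D) ∧
      (∀ x ∈ Ac ∪ As, ∀ y ∈ Ac ∪ As, x ≠ y → Disjoint (J x) (J y) ∧ E (J x ∪ J y) x y) ∧
      D.card ≤ 3 * Ac.card + As.card := by
  classical
  intro N
  induction N with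
  | zero =>
    intro D hN _ _ _
    have hD : D = ∅ := Finset.card_eq_zero.1 (by omega)
    refine ⟨∅, ∅, fun _ => ∅, Finset.empty_subset _, Finset.empty_subset _, by simp, by simp,
      by simp, by simp, by simp [hD]⟩
  | succ N ih =>
    intro D hN hS hρ h2
    by_cases hD : D = ∅
    · refine ⟨∅, ∅, fun _ => ∅, Finset.empty_subset _, Finset.empty_subset _, by simp, by simp,
        by simp, by simp, by simp [hD]⟩
    obtain ⟨top, htop⟩ := Finset.nonempty_iff_ne_empty.2 hD
    have hmax : ∀ i ∈ D, r i ≤ r top := fun i hi => by rw [hρ i hi, hρ top htop]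
    by_cases hconn : ∀ x ∈ Y, c x = top → ∀ y ∈ Y, c y = top →
        ReflTransGen (Step E c D Y) x y
    · -- remove a connected set of colours
      obtain ⟨I, hIM, htI, hIc, hIE⟩ := connected_set hE hS htop hmax hconn
      have hMI : D \ I ⊆ D := Finset.sdiff_subset
      have hS' : Sys E c r (D \ I) Y := by
        refine ⟨fun i hi => hS.ne i (hMI hi), ?_⟩
        intro i hi j hj
        exact hS.up i (hMI hi) j (hMI hj)
      have hcard : (D \ I).card < D.card := by
        refine Finset.card_lt_card ⟨hMI, ?_⟩
        intro h
        exact (Finset.mem_sdiff.1 (h htop)).2 htI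
      obtain ⟨Ac, As, J, hAc, hAs, hdis, hJc, hJs, hJ, hcnt⟩ := ih (D \ I) (by omega) hS'
        (fun i hi => hρ i (hMI hi)) (fun i hi => h2 i (hMI hi))
      obtain ⟨xt, hxt, hcxt⟩ := hS.ne top htop
      have hcJ : ∀ x ∈ Ac ∪ As, c x ∈ J x ∧ J x ⊆ D \ I ∧ x ∈ Y := by
        intro x hx
        rcases Finset.mem_union.1 hx with hx | hx
        · exact ⟨(hJc x hx).1, (hJc x hx).2.1, hAc hx⟩
        · obtain ⟨h1, h2⟩ := hJs x hx
          rw [h1]
          refine ⟨Finset.mem_singleton_self _, ?_, hAs hx⟩
          intro a ha
          rw [Finset.mem_singleton.1 ha]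
          exact h2
      have hxtA : xt ∉ Ac ∪ As := by
        intro h
        have h1 := (hcJ xt h).2.1 (hcJ xt h).1
        rw [hcxt] at h1
        exact (Finset.mem_sdiff.1 h1).2 htI
      -- everything with a colour in `I` is connected with `xt`
      have hIall : ∀ z ∈ Y, c z ∈ I → E I z xt := by
        intro z hz hcz
        by_cases hzt : c z = top
        · exact hIE z hz hzt xt hxt hcxt
        · obtain ⟨y, hy, hcy, hEy⟩ := hS.up (c z) (hIM hcz) top htop hzt (hmax _ (hIM hcz)) z hz rfl
          have e1 : E I z y := by
            refine hE.mono _ _ _ _ ?_ hEy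
            intro a ha
            simp only [Finset.mem_insert, Finset.mem_singleton] at ha
            rcases ha with rfl | rfl
            · exact hcz
            · exact htI
          exact hE.trans _ _ _ _ e1 (hIE y hy hcy xt hxt hcxt)
      have hup : ∀ x ∈ Ac ∪ As, x ≠ xt ∧ Disjoint (J x) I ∧ E (J x ∪ I) x xt := by
        intro x hx
        have hne : x ≠ xt := fun h => hxtA (h ▸ hx)
        obtain ⟨hcx1, hcx2, hxY⟩ := hcJ x hx
        have hcx : c x ∈ D \ I := hcx2 hcx1
        have hcxt' : c x ≠ top := by
          intro h
          rw [h] at hcx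
          exact (Finset.mem_sdiff.1 hcx).2 htI
        refine ⟨hne, ?_, ?_⟩
        · rw [Finset.disjoint_left]
          intro a ha haI
          exact (Finset.mem_sdiff.1 (hcx2 ha)).2 haI
        · obtain ⟨y, hy, hcy, hEy⟩ := hS.up (c x) (hMI hcx) top htop hcxt' (hmax _ (hMI hcx)) x
            hxY rfl
          have e1 : E (J x ∪ I) x y := by
            refine hE.mono _ _ _ _ ?_ hEy
            intro a ha
            simp only [Finset.mem_insert, Finset.mem_singleton] at ha
            rcases ha with rfl | rfl
            · exact Finset.mem_union_left _ hcx1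
            · exact Finset.mem_union_right _ htI
          have e2 : E (J x ∪ I) y xt :=
            hE.mono _ _ _ _ Finset.subset_union_right (hIE y hy hcy xt hxt hcxt)
          exact hE.trans _ _ _ _ e1 e2
      refine ⟨insert xt Ac, As, Function.update J xt I, ?_, hAs, ?_, ?_, ?_, ?_, ?_⟩
      · intro x hx
        rcases Finset.mem_insert.1 hx with hx' | hx'
        · rw [hx']
          exact hxt
        · exact hAc hx'
      · rw [Finset.disjoint_insert_left]
        exact ⟨fun h => hxtA (Finset.mem_union_right _ h), hdis⟩
      · intro x hx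
        rcases Finset.mem_insert.1 hx with hx' | hx'
        · rw [hx', Function.update_self]
          exact ⟨hcxt ▸ htI, hIM, hIall⟩
        · have hne := (hup x (Finset.mem_union_left _ hx')).1
          rw [Function.update_of_ne hne]
          exact ⟨(hJc x hx').1, (hJc x hx').2.1.trans hMI, (hJc x hx').2.2⟩
      · intro x hx
        have hne := (hup x (Finset.mem_union_right _ hx)).1
        rw [Function.update_of_ne hne]
        exact ⟨(hJs x hx).1, hMI (hJs x hx).2⟩
      · intro x hx y hy hxy
        have hmem : ∀ x ∈ insert xt Ac ∪ As, x = xt ∨ x ∈ Ac ∪ As := by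
          intro x hx
          rcases Finset.mem_union.1 hx with hx | hx
          · rcases Finset.mem_insert.1 hx with hx | hx
            · exact Or.inl hx
            · exact Or.inr (Finset.mem_union_left _ hx)
          · exact Or.inr (Finset.mem_union_right _ hx)
        rcases hmem x hx with hx' | hx'
        · rcases hmem y hy with hy' | hy'
          · exact absurd (hx'.trans hy'.symm) hxy
          · rw [hx', Function.update_self, Function.update_of_ne (hup y hy').1]
            obtain ⟨_, h2, h3⟩ := hup y hy'
            refine ⟨h2.symm, ?_⟩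
            rw [Finset.union_comm]
            exact hE.symm _ _ _ h3
        · rcases hmem y hy with hy' | hy'
          · rw [hy', Function.update_self, Function.update_of_ne (hup x hx').1]
            exact (hup x hx').2
          · rw [Function.update_of_ne (hup x hx').1, Function.update_of_ne (hup y hy').1]
            exact hJ x hx' y hy' hxy
      · have hxtAc : xt ∉ Ac := fun h => hxtA (Finset.mem_union_left _ h)
        rw [Finset.card_insert_of_notMem hxtAc]
        have h1 : D.card ≤ (D \ I).card + I.card := by
          have := Finset.card_le_card_sdiff_add_card (s := D) (t := I)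
          omega
        have h3 := h2 top htop
        omega
    · -- a consistent transversal
      push Not at hconn
      obtain ⟨z0, hz0, hcz0, z1, hz1, hcz1, hn⟩ := hconn
      let As := Y.filter (fun y => c y ∈ D ∧ ReflTransGen (Step E c D Y) z0 y)
      -- every colour meets the component of every element of the top fibre
      have hmeet : ∀ z ∈ Y, c z = top → ∀ i ∈ D, ∃ y ∈ Y, c y = i ∧
          ReflTransGen (Step E c D Y) z y := by
        intro z hz hcz i hi
        by_cases hit : i = top
        · exact ⟨z, hz, hcz.trans hit.symm, ReflTransGen.refl⟩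
        · obtain ⟨y, hy, hcy, hEy⟩ := hS.up top htop i hi (fun h => hit h.symm)
            (by rw [hρ i hi, hρ top htop]) z hz hcz
          refine ⟨y, hy, hcy, ReflTransGen.single ⟨hz, hy, hcz.symm ▸ htop, hcy.symm ▸ hi, ?_, ?_⟩⟩
          · rw [hcz, hcy]
            exact fun h => hit h.symm
          · rw [hcz, hcy]
            exact hEy
      have huniq : ∀ x ∈ As, ∀ y ∈ As, c x = c y → x = y := by
        intro x hx y hy hxy
        by_contra hne
        obtain ⟨hxY, hcx, hxs⟩ := Finset.mem_filter.1 hx
        obtain ⟨hyY, hcy, hys⟩ := Finset.mem_filter.1 hy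
        obtain ⟨w, hw, hcw, hws⟩ := hmeet z1 hz1 hcz1 (c x) hcx
        have hwx : w ≠ x := by
          rintro rfl
          exact hn (hxs.trans (steps_symm hE hws))
        have hwy : w ≠ y := by
          rintro rfl
          exact hn (hys.trans (steps_symm hE hws))
        have h3 : ({w, x, y} : Finset V) ⊆ Y.filter (fun u => c u = c x) := by
          intro u hu
          simp only [Finset.mem_insert, Finset.mem_singleton] at hu
          rcases hu with rfl | rfl | rfl
          · exact Finset.mem_filter.2 ⟨hw, hcw⟩
          · exact Finset.mem_filter.2 ⟨hxY, rfl⟩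
          · exact Finset.mem_filter.2 ⟨hyY, hxy.symm⟩
        have h4 := (Finset.card_le_card h3).trans (h2 (c x) hcx)
        rw [Finset.card_insert_of_notMem (by simp [hwx, hwy]), Finset.card_pair hne] at h4
        omega
      refine ⟨∅, As, fun x => {c x}, Finset.empty_subset _, Finset.filter_subset _ _, by simp,
        by simp, ?_, ?_, ?_⟩
      · intro x hx
        exact ⟨rfl, (Finset.mem_filter.1 hx).2.1⟩
      · intro x hx y hy hxy
        rw [Finset.empty_union] at hx hy
        obtain ⟨hxY, hcx, hxs⟩ := Finset.mem_filter.1 hx
        obtain ⟨hyY, hcy, hys⟩ := Finset.mem_filter.1 hy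
        have hne : c x ≠ c y := fun h => hxy (huniq x hx y hy h)
        refine ⟨by simpa using hne, ?_⟩
        obtain ⟨y', hy', hcy', hEy⟩ := hS.up (c x) hcx (c y) hcy hne
          (by rw [hρ _ hcx, hρ _ hcy]) x hxY rfl
        have hy'As : y' ∈ As := by
          refine Finset.mem_filter.2 ⟨hy', hcy'.symm ▸ hcy, hxs.tail
            ⟨hxY, hy', hcx, hcy'.symm ▸ hcy, ?_, ?_⟩⟩
          · rw [hcy']
            exact hne
          · rw [hcy']
            exact hEy
        have := huniq y' hy'As y hy hcy'
        rw [this] at hEy
        exact hEy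
      · have : D ⊆ As.image c := by
          intro i hi
          obtain ⟨y, hy, hcy, hys⟩ := hmeet z0 hz0 hcz0 i hi
          exact Finset.mem_image.2 ⟨y, Finset.mem_filter.2 ⟨hy, hcy.symm ▸ hi, hys⟩, hcy⟩
        have h5 := (Finset.card_le_card this).trans Finset.card_image_le
        simpa using h5

end

end Pool.Agent.Helper54.Scheme
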