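import Mathlib
import Pool.Agent.Helper54.Scheme.Two

/-!
# Kempe chains for a colouring that maximizes the sum of the squares of the multiplicities
-/

set_option autoImplicit false
set_option linter.unusedSectionVars false

namespace Pool.Agent.Helper54.Scheme

open Relation

section

variable {V : Type} [DecidableEq V] {K : ℕ}

/-- One step in `Z` between vertices with colours in `I`. -/
def KStep (G : SimpleGraph V) (Z : Finset V) (c : V → Fin K) (I : Finset (Fin K)) (u w : V) : Prop :=
  G.Adj u w ∧ u ∈ Z ∧ w ∈ Z ∧ c u ∈ I ∧ c w ∈ I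

/-- Connected in `Z` by vertices with colours in `I`. -/
def KConn (G : SimpleGraph V) (Z : Finset V) (c : V → Fin K) (I : Finset (Fin K)) (u w : V) : Prop :=
  ReflTransGen (KStep G Z c I) u w

theorem kconn_rel (G : SimpleGraph V) (Z : Finset V) (c : V → Fin K) : Rel (KConn G Z c) := by
  constructor
  · intro I x
    exact ReflTransGen.refl
  · intro I x y h
    induction h with
    | refl => exact ReflTransGen.refl
    | tail _ h2 ih =>
      exact ReflTransGen.head ⟨h2.1.symm, h2.2.2.1, h2.2.1, h2.2.2.2.2, h2.2.2.2.1⟩ ih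
  · intro I x y z h1 h2
    exact ReflTransGen.trans h1 h2
  · intro I J x y hIJ h
    refine Relation.ReflTransGen.mono ?_ _ _ h
    intro a b hab
    exact ⟨hab.1, hab.2.1, hab.2.2.1, hIJ hab.2.2.2.1, hIJ hab.2.2.2.2⟩

theorem kconn_mem {G : SimpleGraph V} {Z : Finset V} {c : V → Fin K} {I : Finset (Fin K)} {x y : V}
    (h : KConn G Z c I x y) (hx : x ∈ Z) (hcx : c x ∈ I) : y ∈ Z ∧ c y ∈ I := by
  induction h with
  | refl => exact ⟨hx, hcx⟩
  | tail _ h2 _ => exact ⟨h2.2.2.1, h2.2.2.2.2⟩

/-- A walk for connected vertices. -/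
theorem kconn_walk {G : SimpleGraph V} {Z : Finset V} {c : V → Fin K} {I : Finset (Fin K)}
    {x y : V} (h : KConn G Z c I x y) (hx : x ∈ Z) (hcx : c x ∈ I) :
    ∃ w : G.Walk x y, ∀ z ∈ w.support, z ∈ Z ∧ c z ∈ I := by
  induction h with
  | refl =>
    refine ⟨SimpleGraph.Walk.nil, ?_⟩
    intro z hz
    rw [SimpleGraph.Walk.support_nil, List.mem_singleton] at hz
    rw [hz]
    exact ⟨hx, hcx⟩
  | tail _ h2 ih =>
    obtain ⟨w, hw⟩ := ih
    refine ⟨w.append h2.1.toWalk, ?_⟩
    intro z hz
    rw [SimpleGraph.Walk.mem_support_append_iff] at hz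
    rcases hz with hz | hz
    · exact hw z hz
    · rename_i a b _
      have hz' : z = a ∨ z = b := by simpa using hz
      rcases hz' with rfl | rfl
      · exact ⟨h2.2.1, h2.2.2.2.1⟩
      · exact ⟨h2.2.2.1, h2.2.2.2.2⟩

/-- Proper colourings of `Z`. -/
def Proper (G : SimpleGraph V) (Z : Finset V) (c : V → Fin K) : Prop :=
  ∀ a ∈ Z, ∀ b ∈ Z, G.Adj a b → c a ≠ c b

/-- The multiplicity of a colour. -/
def mult (X : Finset V) (c : V → Fin K) (i : Fin K) : ℕ := (X.filter (fun x => c x = i)).card

/-- Kempe chains reach the colours of at least the same multiplicity. -/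
theorem kempe (G : SimpleGraph V) (Z X : Finset V) (hXZ : X ⊆ Z) (c : V → Fin K)
    (hc : Proper G Z c)
    (hmax : ∀ c' : V → Fin K, Proper G Z c' → ∑ l, mult X c' l ^ 2 ≤ ∑ l, mult X c l ^ 2)
    {i j : Fin K} (hij : i ≠ j) (hle : mult X c i ≤ mult X c j) {x : V} (hx : x ∈ X)
    (hcx : c x = i) : ∃ y ∈ X, c y = j ∧ KConn G Z c {i, j} x y := by
  classical
  by_contra hcon
  push Not at hcon
  have hxZ := hXZ hx
  have hi : i ∈ ({i, j} : Finset (Fin K)) := Finset.mem_insert_self _ _
  have hj : j ∈ ({i, j} : Finset (Fin K)) := Finset.mem_insert_of_mem (Finset.mem_singleton_self _)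
  -- the colouring after the exchange
  let c' : V → Fin K := fun u => if KConn G Z c {i, j} x u then Equiv.swap i j (c u) else c u
  have hc'1 : ∀ u, KConn G Z c {i, j} x u → c' u = Equiv.swap i j (c u) := fun u h => if_pos h
  have hc'2 : ∀ u, ¬ KConn G Z c {i, j} x u → c' u = c u := fun u h => if_neg h
  have hQ : ∀ u, KConn G Z c {i, j} x u → c u = i ∨ c u = j := by
    intro u hu
    have := (kconn_mem hu hxZ (hcx.symm ▸ hi)).2
    simpa using this
  have hQ' : ∀ u, KConn G Z c {i, j} x u → c' u = i ∨ c' u = j := by
    intro u hu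
    rw [hc'1 u hu]
    rcases hQ u hu with h | h
    · rw [h, Equiv.swap_apply_left]
      exact Or.inr rfl
    · rw [h, Equiv.swap_apply_right]
      exact Or.inl rfl
  have hprop : Proper G Z c' := by
    intro a ha b hb hab
    have hne := hc a ha b hb hab
    by_cases hQa : KConn G Z c {i, j} x a
    · by_cases hQb : KConn G Z c {i, j} x b
      · rw [hc'1 a hQa, hc'1 b hQb]
        exact fun h => hne ((Equiv.swap i j).injective h)
      · have hcb : c b ≠ i ∧ c b ≠ j := by
          by_contra hcb
          apply hQb
          refine ReflTransGen.tail hQa ⟨hab, ha, hb, ?_, ?_⟩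
          · rcases hQ a hQa with h | h
            · rw [h]
              exact hi
            · rw [h]
              exact hj
          · have : c b = i ∨ c b = j := by tauto
            rcases this with h | h
            · rw [h]
              exact hi
            · rw [h]
              exact hj
        rw [hc'2 b hQb]
        rcases hQ' a hQa with h | h
        · rw [h]
          exact fun h => hcb.1 h.symm
        · rw [h]
          exact fun h => hcb.2 h.symm
    · by_cases hQb : KConn G Z c {i, j} x b
      · have hca : c a ≠ i ∧ c a ≠ j := by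
          by_contra hca
          apply hQa
          refine ReflTransGen.tail hQb ⟨hab.symm, hb, ha, ?_, ?_⟩
          · rcases hQ b hQb with h | h
            · rw [h]
              exact hi
            · rw [h]
              exact hj
          · have : c a = i ∨ c a = j := by tauto
            rcases this with h | h
            · rw [h]
              exact hi
            · rw [h]
              exact hj
        rw [hc'2 a hQa]
        rcases hQ' b hQb with h | h
        · rw [h]
          exact hca.1
        · rw [h]
          exact hca.2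
      · rw [hc'2 a hQa, hc'2 b hQb]
        exact hne
  -- the multiplicities
  let P := X.filter (fun u => c u = i ∧ KConn G Z c {i, j} x u)
  have hP : 0 < P.card :=
    Finset.card_pos.2 ⟨x, Finset.mem_filter.2 ⟨hx, hcx, ReflTransGen.refl⟩⟩
  have hmi : mult X c' i + P.card = mult X c i := by
    unfold mult
    rw [← Finset.card_union_of_disjoint]
    · congr 1
      ext u
      simp only [Finset.mem_union, Finset.mem_filter, P]
      constructor
      · rintro (⟨h1, h2⟩ | ⟨h1, h2, _⟩)
        · refine ⟨h1, ?_⟩
          by_cases hu : KConn G Z c {i, j} x u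
          · rcases hQ u hu with h | h
            · exact h
            · exact absurd hu (hcon u h1 h)
          · rwa [hc'2 u hu] at h2
        · exact ⟨h1, h2⟩
      · rintro ⟨h1, h2⟩
        by_cases hu : KConn G Z c {i, j} x u
        · exact Or.inr ⟨h1, h2, hu⟩
        · refine Or.inl ⟨h1, ?_⟩
          rw [hc'2 u hu]
          exact h2
    · rw [Finset.disjoint_left]
      intro u hu hu'
      obtain ⟨_, h2⟩ := Finset.mem_filter.1 hu
      obtain ⟨_, h3, h4⟩ := Finset.mem_filter.1 hu'
      rw [hc'1 u h4, h3, Equiv.swap_apply_left] at h2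
      exact hij h2.symm
  have hmj : mult X c' j = mult X c j + P.card := by
    unfold mult
    rw [← Finset.card_union_of_disjoint]
    · congr 1
      ext u
      simp only [Finset.mem_union, Finset.mem_filter, P]
      constructor
      · rintro ⟨h1, h2⟩
        by_cases hu : KConn G Z c {i, j} x u
        · rcases hQ u hu with h | h
          · exact Or.inr ⟨h1, h, hu⟩
          · exact absurd hu (hcon u h1 h)
        · rw [hc'2 u hu] at h2
          exact Or.inl ⟨h1, h2⟩
      · rintro (⟨h1, h2⟩ | ⟨h1, h2, h3⟩)
        · refine ⟨h1, ?_⟩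
          have hu : ¬ KConn G Z c {i, j} x u := hcon u h1 h2
          rw [hc'2 u hu]
          exact h2
        · refine ⟨h1, ?_⟩
          rw [hc'1 u h3, h2, Equiv.swap_apply_left]
    · rw [Finset.disjoint_left]
      intro u hu hu'
      obtain ⟨_, h2⟩ := Finset.mem_filter.1 hu
      obtain ⟨_, h3, _⟩ := Finset.mem_filter.1 hu'
      exact hij (h3.symm.trans h2)
  have hml : ∀ l, l ≠ i → l ≠ j → mult X c' l = mult X c l := by
    intro l hli hlj
    unfold mult
    congr 1
    ext u
    simp only [Finset.mem_filter, and_congr_right_iff]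
    intro hu
    by_cases hQu : KConn G Z c {i, j} x u
    · constructor
      · intro h
        rcases hQ' u hQu with h' | h'
        · exact absurd (h.symm.trans h') hli
        · exact absurd (h.symm.trans h') hlj
      · intro h
        rcases hQ u hQu with h' | h'
        · exact absurd (h.symm.trans h') hli
        · exact absurd (h.symm.trans h') hlj
    · rw [hc'2 u hQu]
  have hsum : ∀ g : Fin K → ℕ, ∑ l, g l = g i + (g j + ∑ l ∈ (Finset.univ.erase i).erase j, g l) := by
    intro g
    rw [Finset.add_sum_erase _ _ (Finset.mem_erase.2 ⟨hij.symm, Finset.mem_univ _⟩),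
      Finset.add_sum_erase _ _ (Finset.mem_univ _)]
  have h1 := hmax c' hprop
  rw [hsum (fun l => mult X c' l ^ 2), hsum (fun l => mult X c l ^ 2)] at h1
  have h2 : ∑ l ∈ (Finset.univ.erase i).erase j, mult X c' l ^ 2 =
      ∑ l ∈ (Finset.univ.erase i).erase j, mult X c l ^ 2 := by
    refine Finset.sum_congr rfl fun l hl => ?_
    rw [hml l (Finset.ne_of_mem_erase (Finset.mem_of_mem_erase hl)) (Finset.ne_of_mem_erase hl)]
  rw [h2, hmj, ← hmi] at h1
  rw [← hmi] at hle
  nlinarith

end

end Pool.Agent.Helper54.Scheme
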