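import Mathlib
import Pool.Agent.Helper54.Scheme.Kempe

/-!
# Schemes from a critical vertex
-/

set_option autoImplicit false
set_option linter.unusedSectionVars false

namespace Pool.Agent.Helper54.Scheme

open Relation

/-- Schemes from disjoint sets with connected representatives. -/
theorem scheme_of_walks {V : Type} {G : SimpleGraph V} {k : ℕ} (B : Fin k → Set V)
    (x : Fin k → V) (hx : ∀ i, x i ∈ B i)
    (hdis : ∀ i j, i ≠ j → Disjoint (B i) (B j))
    (hw : ∀ i j, i < j → ∃ w : G.Walk (x i) (x j), ∀ z ∈ w.support, z ∈ B i ∪ B j) :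
    ∃ P : (i j : Fin k) → G.Walk (x i) (x j), Function.Injective x ∧
      (∀ i j, (P i j).IsPath ∧ ∀ v ∈ (P i j).support, v ∈ B i ∪ B j) ∧
      (∀ i j h l : Fin k, i ≠ h → i ≠ l → j ≠ h → j ≠ l →
        ∀ v : V, v ∈ (P i j).support → v ∉ (P h l).support) := by
  classical
  have hwalk : ∀ i j, ∃ w : G.Walk (x i) (x j), w.IsPath ∧ ∀ v ∈ w.support, v ∈ B i ∪ B j := by
    intro i j
    have main : ∀ w : G.Walk (x i) (x j), (∀ z ∈ w.support, z ∈ B i ∪ B j) →
        ∃ w : G.Walk (x i) (x j), w.IsPath ∧ ∀ v ∈ w.support, v ∈ B i ∪ B j := fun w hw =>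
      ⟨w.bypass, SimpleGraph.Walk.bypass_isPath _, fun z hz =>
        hw z (SimpleGraph.Walk.support_bypass_subset_support _ hz)⟩
    rcases lt_trichotomy i j with h | h | h
    · obtain ⟨w, hw⟩ := hw i j h
      exact main w hw
    · subst h
      refine ⟨SimpleGraph.Walk.nil, SimpleGraph.Walk.IsPath.nil, fun v hv => ?_⟩
      rw [SimpleGraph.Walk.support_nil, List.mem_singleton] at hv
      left
      rw [hv]
      exact hx i
    · obtain ⟨w, hw⟩ := hw j i h
      refine main w.reverse fun z hz => ?_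
      rw [SimpleGraph.Walk.support_reverse, List.mem_reverse] at hz
      rw [Set.union_comm]
      exact hw z hz
  choose P hP1 hP2 using hwalk
  refine ⟨P, ?_, fun i j => ⟨hP1 i j, hP2 i j⟩, ?_⟩
  · intro i j hij
    by_contra hne
    exact Set.disjoint_left.1 (hdis i j hne) (hx i) (hij ▸ hx j)
  · intro i j h l hih hil hjh hjl v hv hv'
    have h1 := hP2 i j v hv
    have h2 := hP2 h l v hv'
    rcases h1 with h1 | h1 <;> rcases h2 with h2 | h2
    · exact Set.disjoint_left.1 (hdis i h hih) h1 h2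
    · exact Set.disjoint_left.1 (hdis i l hil) h1 h2
    · exact Set.disjoint_left.1 (hdis j h hjh) h1 h2
    · exact Set.disjoint_left.1 (hdis j l hjl) h1 h2

/-- `G` has a scheme of order `s` in disjoint sets. -/
def HasScheme {V : Type} (G : SimpleGraph V) (s : ℕ) : Prop :=
  ∃ (B : Fin s → Set V) (x : Fin s → V) (P : (i j : Fin s) → G.Walk (x i) (x j)),
    (∀ i, x i ∈ B i) ∧ (∀ i j, i ≠ j → Disjoint (B i) (B j)) ∧ Function.Injective x ∧
    (∀ i j, (P i j).IsPath ∧ ∀ v ∈ (P i j).support, v ∈ B i ∪ B j) ∧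
    (∀ i j h l : Fin s, i ≠ h → i ≠ l → j ≠ h → j ≠ l →
      ∀ v : V, v ∈ (P i j).support → v ∉ (P h l).support)

section

variable {V : Type} [DecidableEq V] {K : ℕ}

/-- From a family of blocks to a scheme. -/
theorem scheme_of_family (G : SimpleGraph V) (Z X : Finset V) (hXZ : X ⊆ Z) (v : V) (hv : v ∉ Z)
    (hXv : ∀ x ∈ X, G.Adj v x) (c : V → Fin K) (A : Finset V) (J : V → Finset (Fin K))
    (hA : A ⊆ X) (hJ : ∀ x ∈ A, c x ∈ J x)
    (hAJ : ∀ x ∈ A, ∀ y ∈ A, x ≠ y → Disjoint (J x) (J y) ∧ KConn G Z c (J x ∪ J y) x y)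
    (q : ℕ) (hq : q ≤ A.card) : HasScheme G (q + 1) := by
  classical
  obtain ⟨A0, hA0, hcard⟩ := Finset.exists_subset_card_eq hq
  let e : Fin q ≃ A0 := (Finset.equivFinOfCardEq hcard).symm
  have he : ∀ i, (e i : V) ∈ A := fun i => hA0 (e i).2
  let x : Fin (q + 1) → V := Fin.cons v (fun i => (e i : V))
  let B : Fin (q + 1) → Set V := Fin.cons {v} (fun i => {u | u ∈ Z ∧ c u ∈ J (e i)})
  have hx : ∀ i, x i ∈ B i := by
    intro i
    refine Fin.cases ?_ ?_ i
    · exact Set.mem_singleton v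
    · intro i
      exact ⟨hXZ (hA (he i)), hJ _ (he i)⟩
  have hne : ∀ i j : Fin q, i ≠ j → (e i : V) ≠ e j := fun i j hij h =>
    hij (e.injective (Subtype.ext h))
  have hdis : ∀ i j, i ≠ j → Disjoint (B i) (B j) := by
    intro i
    refine Fin.cases ?_ ?_ i
    · intro j
      refine Fin.cases (fun h => absurd rfl h) (fun j _ => ?_) j
      rw [Set.disjoint_left]
      rintro u hu ⟨hu1, _⟩
      rw [Set.mem_singleton_iff.1 hu] at hu1
      exact hv hu1
    · intro i j
      refine Fin.cases (fun _ => ?_) (fun j hij => ?_) j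
      · rw [Set.disjoint_left]
        rintro u ⟨hu1, _⟩ hu
        rw [Set.mem_singleton_iff.1 hu] at hu1
        exact hv hu1
      · have hij' : i ≠ j := fun h => hij (by rw [h])
        rw [Set.disjoint_left]
        rintro u ⟨_, hu1⟩ ⟨_, hu2⟩
        exact Finset.disjoint_left.1 (hAJ _ (he i) _ (he j) (hne i j hij')).1 hu1 hu2
  have hw : ∀ i j, i < j → ∃ w : G.Walk (x i) (x j), ∀ z ∈ w.support, z ∈ B i ∪ B j := by
    intro i j hij
    have hj0 : j ≠ 0 := Fin.ne_zero_of_lt hij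
    obtain ⟨j, rfl⟩ := Fin.exists_succ_eq.2 hj0
    by_cases hi0 : i = 0
    · subst hi0
      have hadj : G.Adj (x 0) (x j.succ) := hXv _ (hA (he j))
      refine ⟨hadj.toWalk, fun z hz => ?_⟩
      have hz' : z = x 0 ∨ z = x j.succ := by
        simpa using hz
      rcases hz' with rfl | rfl
      · exact Or.inl (hx _)
      · exact Or.inr (hx _)
    · obtain ⟨i, rfl⟩ := Fin.exists_succ_eq.2 hi0
      have hij' : i ≠ j := by
        rintro rfl
        exact lt_irrefl _ hij
      obtain ⟨w, hw⟩ := kconn_walk (hAJ _ (he i) _ (he j) (hne i j hij')).2 (hXZ (hA (he i)))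
        (Finset.mem_union_left _ (hJ _ (he i)))
      refine ⟨w, fun z hz => ?_⟩
      obtain ⟨h1, h2⟩ := hw z hz
      rcases Finset.mem_union.1 h2 with h2 | h2
      · exact Or.inl ⟨h1, h2⟩
      · exact Or.inr ⟨h1, h2⟩
  obtain ⟨P, h1, h2, h3⟩ := scheme_of_walks B x hx hdis hw
  exact ⟨B, x, P, hx, hdis, h1, h2, h3⟩

/-- The counting of the multiplicities. -/
theorem counting (Q K d : ℕ) (m : Fin K → ℕ) (hm : ∀ i, 1 ≤ m i) (hd : ∑ i, m i ≤ d)
    (h1 : (Finset.univ.filter (fun i => m i ≤ 1)).card ≤ Q)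
    (h12 : (Finset.univ.filter (fun i => m i ≤ 1)).card +
      (Finset.univ.filter (fun i => m i ≤ 2)).card ≤ 3 * Q)
    (hτ : ∀ τ, 1 ≤ τ → (Finset.univ.filter (fun i => m i ≤ τ)).card ≤ (2 * τ - 1) * Q) :
    2 * K ≤ Q + d ∧ ∀ n, 2 ≤ n → (n + 1) * K ≤ (n ^ 2 - 1) * Q + d := by
  classical
  have key : ∀ n, (n + 1) * K ≤
      ∑ τ ∈ Finset.Icc 1 n, (Finset.univ.filter (fun i => m i ≤ τ)).card + d := by
    intro n
    have e1 : ∑ τ ∈ Finset.Icc 1 n, (Finset.univ.filter (fun i => m i ≤ τ)).card =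
        ∑ i, ((Finset.Icc 1 n).filter (fun τ => m i ≤ τ)).card := by
      simp only [Finset.card_filter]
      exact Finset.sum_comm
    have e2 : ∀ i, n + 1 ≤ ((Finset.Icc 1 n).filter (fun τ => m i ≤ τ)).card + m i := by
      intro i
      have : Finset.Icc (m i) n ⊆ (Finset.Icc 1 n).filter (fun τ => m i ≤ τ) := by
        intro τ hτ
        rw [Finset.mem_Icc] at hτ
        rw [Finset.mem_filter, Finset.mem_Icc]
        exact ⟨⟨(hm i).trans hτ.1, hτ.2⟩, hτ.1⟩
      have h3 := Finset.card_le_card this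
      rw [Nat.card_Icc] at h3
      omega
    have e3 : ∑ _i : Fin K, (n + 1) ≤
        ∑ i, (((Finset.Icc 1 n).filter (fun τ => m i ≤ τ)).card + m i) :=
      Finset.sum_le_sum fun i _ => e2 i
    rw [Finset.sum_const, Finset.card_univ, Fintype.card_fin, Finset.sum_add_distrib,
      smul_eq_mul] at e3
    rw [e1]
    nlinarith
  have hsum : ∀ n, 2 ≤ n →
      ∑ τ ∈ Finset.Icc 1 n, (Finset.univ.filter (fun i => m i ≤ τ)).card ≤ (n ^ 2 - 1) * Q := by
    intro n hn
    induction n, hn using Nat.le_induction with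
    | base =>
      have : Finset.Icc 1 2 = ({1, 2} : Finset ℕ) := by decide
      rw [this, Finset.sum_pair (by norm_num)]
      exact h12
    | succ n hn ih =>
      rw [Finset.sum_Icc_succ_top (by omega)]
      have h2 := hτ (n + 1) (by omega)
      obtain ⟨a, ha⟩ : ∃ a, n ^ 2 = a + 1 := ⟨n ^ 2 - 1, by
        have : 1 ≤ n ^ 2 := Nat.one_le_pow _ _ (by omega)
        omega⟩
      have e1 : n ^ 2 - 1 = a := by omega
      have e2 : (n + 1) ^ 2 - 1 = a + (2 * n + 1) := by
        have : (n + 1) ^ 2 = n ^ 2 + 2 * n + 1 := by ring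
        omega
      have e3 : 2 * (n + 1) - 1 = 2 * n + 1 := by omega
      rw [e1] at ih
      rw [e3] at h2
      rw [e2]
      nlinarith
  refine ⟨?_, ?_⟩
  · have h := key 1
    rw [Finset.Icc_self, Finset.sum_singleton] at h
    omega
  · intro n hn
    have h1 := key n
    have h2 := hsum n hn
    omega

/-- The choice of the parameter. -/
theorem param (K d q : ℕ) (hq : 1 ≤ q) (hKd : K ≤ d) (hK : 0 < K) (h : 4 * d * q ≤ K ^ 2) :
    ∃ n, 2 ≤ n ∧ (n ^ 2 - 1) * q + d < (n + 1) * K + (n ^ 2 - 1) := by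
  have h4 : 4 * q ≤ K := by
    by_contra hcon
    push Not at hcon
    have h1 : K * K < K * (4 * q) := Nat.mul_lt_mul_of_pos_left hcon hK
    have h2 : K * (4 * q) ≤ d * (4 * q) := Nat.mul_le_mul_right _ hKd
    nlinarith
  obtain ⟨n, e, hn, he⟩ : ∃ n e, K + q = 2 * q * n + e ∧ e < 2 * q :=
    ⟨(K + q) / (2 * q), (K + q) % (2 * q), (Nat.div_add_mod _ _).symm,
      Nat.mod_lt _ (by omega)⟩
  have hn2 : 2 ≤ n := by
    by_contra hcon
    have : n ≤ 1 := by omega
    have h5 : 2 * q * n ≤ 2 * q * 1 := Nat.mul_le_mul_left _ this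
    omega
  refine ⟨n, hn2, ?_⟩
  obtain ⟨a, ha⟩ : ∃ a, n ^ 2 = a + 1 := ⟨n ^ 2 - 1, by
    have : 1 ≤ n ^ 2 := Nat.one_le_pow _ _ (by omega)
    omega⟩
  have e1 : n ^ 2 - 1 = a := by omega
  rw [e1]
  by_contra hcon
  push Not at hcon
  -- pass to the integers
  have hn' : (K : ℤ) + q = 2 * q * n + e := by exact_mod_cast hn
  have he' : (e : ℤ) < 2 * q := by exact_mod_cast he
  have he0 : (0 : ℤ) ≤ e := Int.natCast_nonneg _
  have hq' : (1 : ℤ) ≤ q := by exact_mod_cast hq
  have h' : 4 * (d : ℤ) * q ≤ K ^ 2 := by exact_mod_cast h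
  have ha' : (n : ℤ) ^ 2 = a + 1 := by exact_mod_cast ha
  have hcon' : ((n : ℤ) + 1) * K + a ≤ a * q + d := by exact_mod_cast hcon
  have ha0 : (0 : ℤ) ≤ a := Int.natCast_nonneg _
  have hK' : (0 : ℤ) < K := by exact_mod_cast hK
  have h6 : ((K : ℤ) - 2 * q * n) ^ 2 ≤ q ^ 2 := by
    have : (K : ℤ) - 2 * q * n = e - q := by linarith
    rw [this]
    nlinarith
  have h7 : 4 * (q : ℤ) * (((n : ℤ) + 1) * K) ≤ 4 * q * (a * q + d) := by
    have : ((n : ℤ) + 1) * K ≤ a * q + d := by linarith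
    nlinarith
  have h8 : (a : ℤ) = n ^ 2 - 1 := by linarith
  rw [h8] at h7
  nlinarith

/-- The main theorem in terms of a vertex `v` outside of `Z`. -/
theorem main_aux (G : SimpleGraph V) (Z X : Finset V) (hXZ : X ⊆ Z) (v : V) (hv : v ∉ Z)
    (hXv : ∀ x ∈ X, G.Adj v x) (d q : ℕ) (hXd : X.card ≤ d)
    (h1 : ∃ c : V → Fin K, Proper G Z c)
    (h2 : ∀ c : V → Fin K, Proper G Z c → ∀ i, ∃ x ∈ X, c x = i)
    (hq : q + d ≤ 2 * K ∨ (∃ n, 2 ≤ n ∧ (n ^ 2 - 1) * q + d < (n + 1) * K + (n ^ 2 - 1)) ∨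
      (0 < K ∧ 4 * d * q ≤ K ^ 2)) : HasScheme G (q + 1) := by
  classical
  -- the colouring
  obtain ⟨c, hc, hmax⟩ : ∃ c : V → Fin K, Proper G Z c ∧ ∀ c' : V → Fin K, Proper G Z c' →
      ∑ l, mult X c' l ^ 2 ≤ ∑ l, mult X c l ^ 2 := by
    have hbd : ∀ c : V → Fin K, ∑ l, mult X c l ^ 2 ≤ ∑ _l : Fin K, X.card ^ 2 := fun c =>
      Finset.sum_le_sum fun l _ => Nat.pow_le_pow_left (Finset.card_filter_le _ _) 2
    obtain ⟨c0, hc0⟩ := h1
    have hne : ∃ N, ∃ c : V → Fin K, Proper G Z c ∧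
        ∑ l, mult X c l ^ 2 + N = ∑ _l : Fin K, X.card ^ 2 :=
      ⟨_, c0, hc0, Nat.add_sub_cancel' (hbd c0)⟩
    obtain ⟨c, hc, hN⟩ := Nat.find_spec hne
    refine ⟨c, hc, fun c' hc' => ?_⟩
    by_contra hlt
    push Not at hlt
    have h3 := hbd c'
    refine Nat.find_min hne (m := (∑ _l : Fin K, X.card ^ 2) - ∑ l, mult X c' l ^ 2) ?_
      ⟨c', hc', Nat.add_sub_cancel' h3⟩
    omega
  have hE := kconn_rel G Z c
  have hS : ∀ M : Finset (Fin K), Sys (KConn G Z c) c (mult X c) M X := by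
    intro M
    refine ⟨fun i _ => h2 c hc i, ?_⟩
    intro i _ j _ hij hle x hx hcx
    exact kempe G Z X hXZ c hc hmax hij hle hx hcx
  have hm1 : ∀ i, 1 ≤ mult X c i := by
    intro i
    obtain ⟨x, hx, hcx⟩ := h2 c hc i
    exact Finset.card_pos.2 ⟨x, Finset.mem_filter.2 ⟨hx, hcx⟩⟩
  have hsum : ∑ i, mult X c i ≤ d := by
    have : ∑ i, mult X c i = X.card := by
      unfold mult
      rw [← Finset.card_eq_sum_card_fiberwise]
      intro x _
      exact Finset.mem_coe.2 (Finset.mem_univ _)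
    omega
  by_contra hno
  have hfam : ∀ (A : Finset V) (J : V → Finset (Fin K)), A ⊆ X → (∀ x ∈ A, c x ∈ J x) →
      (∀ x ∈ A, ∀ y ∈ A, x ≠ y → Disjoint (J x) (J y) ∧ KConn G Z c (J x ∪ J y) x y) →
      A.card + 1 ≤ q := by
    intro A J hA hJ hAJ
    by_contra hlt
    exact hno (scheme_of_family G Z X hXZ v hv hXv c A J hA hJ hAJ q (by omega))
  have hq1 : 1 ≤ q := by
    have := hfam ∅ (fun _ => ∅) (Finset.empty_subset _) (by simp) (by simp)
    simpa using this
  obtain ⟨Q, rfl⟩ : ∃ Q, q = Q + 1 := ⟨q - 1, by omega⟩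
  have hτ : ∀ τ, 1 ≤ τ →
      (Finset.univ.filter (fun i => mult X c i ≤ τ)).card ≤ (2 * τ - 1) * Q := by
    intro τ hτ
    obtain ⟨A, J, hA, hJ, hAJ, hcnt⟩ := process (r := mult X c) hE τ _
      (Finset.univ.filter (fun i => mult X c i ≤ τ)) X le_rfl (hS _)
      (fun i hi => (Finset.mem_filter.1 hi).2)
    have h3 := hfam A J hA (fun x hx => (hJ x hx).1) hAJ
    have h4 : A.card ≤ Q := by omega
    obtain ⟨τ', rfl⟩ : ∃ τ', τ = τ' + 1 := ⟨τ - 1, by omega⟩
    have h5 : 2 * (τ' + 1) - 1 = 2 * τ' + 1 := by omega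
    rw [h5]
    nlinarith
  have hτ1 : (Finset.univ.filter (fun i => mult X c i ≤ 1)).card ≤ Q := by
    have := hτ 1 le_rfl
    simpa using this
  -- the classes of multiplicity one and two
  have h12 : (Finset.univ.filter (fun i => mult X c i ≤ 1)).card +
      (Finset.univ.filter (fun i => mult X c i ≤ 2)).card ≤ 3 * Q := by
    let D := Finset.univ.filter (fun i => mult X c i = 2)
    let S := Finset.univ.filter (fun i => mult X c i ≤ 1)
    have hSD : (Finset.univ.filter (fun i => mult X c i ≤ 2)).card = S.card + D.card := by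
      rw [← Finset.card_union_of_disjoint]
      · congr 1
        ext i
        simp only [Finset.mem_union, Finset.mem_filter, Finset.mem_univ, true_and, S, D]
        omega
      · rw [Finset.disjoint_left]
        intro i hi hi'
        have e1 := (Finset.mem_filter.1 hi).2
        have e2 := (Finset.mem_filter.1 hi').2
        omega
    obtain ⟨Ac, As, J, hAc, hAs, hdis, hJc, hJs, hJ, hcnt⟩ := two_class (r := mult X c) hE X 2 _ D
      le_rfl (hS _) (fun i hi => (Finset.mem_filter.1 hi).2)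
      (fun i hi => (Finset.mem_filter.1 hi).2.le)
    -- the first family
    have f1 := hfam (Ac ∪ As) J (Finset.union_subset hAc hAs) (by
      intro x hx
      rcases Finset.mem_union.1 hx with hx | hx
      · exact (hJc x hx).1
      · rw [(hJs x hx).1]
        exact Finset.mem_singleton_self _) hJ
    rw [Finset.card_union_of_disjoint hdis] at f1
    -- the second family
    let As1 := X.filter (fun x => c x ∈ S)
    have hs1 : ∀ x ∈ As1, x ∈ X ∧ mult X c (c x) ≤ 1 := by
      intro x hx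
      obtain ⟨e1, e2⟩ := Finset.mem_filter.1 hx
      exact ⟨e1, (Finset.mem_filter.1 e2).2⟩
    have hsu : ∀ x ∈ As1, ∀ y ∈ X, c y = c x → y = x := by
      intro x hx y hy hxy
      obtain ⟨e1, e2⟩ := hs1 x hx
      exact Finset.card_le_one.1 e2 y (Finset.mem_filter.2 ⟨hy, hxy⟩) x
        (Finset.mem_filter.2 ⟨e1, rfl⟩)
    have hcD : ∀ x ∈ Ac, ∀ i ∈ J x, mult X c i = 2 := by
      intro x hx i hi
      exact (Finset.mem_filter.1 ((hJc x hx).2.1 hi)).2
    have hcx : ∀ x ∈ As1, ∀ y ∈ Ac, c x ∉ J y := by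
      intro x hx y hy h
      have e1 := hcD y hy _ h
      have e2 := (hs1 x hx).2
      omega
    have hdis1 : Disjoint As1 Ac := by
      rw [Finset.disjoint_left]
      intro x hx hx'
      exact hcx x hx x hx' (hJc x hx').1
    let J1 : V → Finset (Fin K) := fun x => if x ∈ Ac then J x else {c x}
    have hJ1c : ∀ x ∈ Ac, J1 x = J x := fun x hx => if_pos hx
    have hJ1s : ∀ x ∈ As1, J1 x = {c x} := fun x hx =>
      if_neg (Finset.disjoint_left.1 hdis1 hx)
    -- a single colour and a connected set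
    have hmix : ∀ x ∈ As1, ∀ y ∈ Ac, Disjoint (J1 x) (J1 y) ∧ KConn G Z c (J1 x ∪ J1 y) x y := by
      intro x hx y hy
      rw [hJ1s x hx, hJ1c y hy]
      refine ⟨Finset.disjoint_singleton_left.2 (hcx x hx y hy), ?_⟩
      have hne : c x ≠ c y := fun h => hcx x hx y hy (h ▸ (hJc y hy).1)
      obtain ⟨z, hz, hcz, hEz⟩ := kempe G Z X hXZ c hc hmax hne (by
        have e1 := (hs1 x hx).2
        have e2 := hcD y hy _ (hJc y hy).1
        omega) (hs1 x hx).1 rfl
      have e1 : KConn G Z c ({c x} ∪ J y) x z := by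
        refine hE.mono _ _ _ _ ?_ hEz
        intro a ha
        simp only [Finset.mem_insert, Finset.mem_singleton] at ha
        rcases ha with rfl | rfl
        · exact Finset.mem_union_left _ (Finset.mem_singleton_self _)
        · exact Finset.mem_union_right _ (hJc y hy).1
      have e2 : KConn G Z c ({c x} ∪ J y) z y :=
        hE.mono _ _ _ _ Finset.subset_union_right
          ((hJc y hy).2.2 z hz (hcz.symm ▸ (hJc y hy).1))
      exact hE.trans _ _ _ _ e1 e2
    have f2 := hfam (As1 ∪ Ac) J1 (Finset.union_subset (Finset.filter_subset _ _) hAc) (by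
      intro x hx
      rcases Finset.mem_union.1 hx with hx | hx
      · rw [hJ1s x hx]
        exact Finset.mem_singleton_self _
      · rw [hJ1c x hx]
        exact (hJc x hx).1) (by
      intro x hx y hy hxy
      rcases Finset.mem_union.1 hx with hx | hx
      · rcases Finset.mem_union.1 hy with hy | hy
        · rw [hJ1s x hx, hJ1s y hy]
          have hne : c x ≠ c y := fun h => hxy (hsu y hy x (hs1 x hx).1 h)
          refine ⟨Finset.disjoint_singleton.2 hne, ?_⟩
          obtain ⟨z, hz, hcz, hEz⟩ := kempe G Z X hXZ c hc hmax hne (by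
            have e1 := (hs1 x hx).2
            have e2 := hm1 (c y)
            omega) (hs1 x hx).1 rfl
          rw [hsu y hy z hz hcz] at hEz
          exact hEz
        · exact hmix x hx y hy
      · rcases Finset.mem_union.1 hy with hy | hy
        · obtain ⟨e1, e2⟩ := hmix y hy x hx
          refine ⟨e1.symm, ?_⟩
          rw [Finset.union_comm]
          exact hE.symm _ _ _ e2
        · rw [hJ1c x hx, hJ1c y hy]
          exact hJ x (Finset.mem_union_left _ hx) y (Finset.mem_union_left _ hy) hxy)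
    rw [Finset.card_union_of_disjoint hdis1] at f2
    have hScard : S.card ≤ As1.card := by
      have : S ⊆ As1.image c := by
        intro i hi
        obtain ⟨x, hx, hcx⟩ := h2 c hc i
        exact Finset.mem_image.2 ⟨x, Finset.mem_filter.2 ⟨hx, hcx.symm ▸ hi⟩, hcx⟩
      exact (Finset.card_le_card this).trans Finset.card_image_le
    rw [hSD]
    change S.card + (S.card + D.card) ≤ 3 * Q
    omega
  obtain ⟨c1, c2⟩ := counting Q K d (mult X c) hm1 hsum hτ1 h12 hτ
  have c3 : (∃ n, 2 ≤ n ∧ (n ^ 2 - 1) * (Q + 1) + d < (n + 1) * K + (n ^ 2 - 1)) → False := by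
    rintro ⟨n, hn, hlt⟩
    have := c2 n hn
    nlinarith
  rcases hq with hq | hq | ⟨hK, hq⟩
  · omega
  · exact c3 hq
  · refine c3 (param K d (Q + 1) (by omega) ?_ hK hq)
    have : ∑ _i : Fin K, 1 ≤ ∑ i, mult X c i := Finset.sum_le_sum fun i _ => hm1 i
    rw [Finset.sum_const, Finset.card_univ, Fintype.card_fin, smul_eq_mul, mul_one] at this
    omega

end

end Pool.Agent.Helper54.Scheme
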