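import Mathlib
import Pool.Agent.Helper54.Scheme.Main

/-!
# The scheme theorems for critical vertices and for degenerate graphs
-/

set_option autoImplicit false
set_option linter.unusedSectionVars false

namespace Pool.Agent.Helper54.Scheme

/-- The condition on the parameters. -/
def Cond (K d q : ℕ) : Prop :=
  q + d ≤ 2 * K ∨ (∃ n, 2 ≤ n ∧ (n ^ 2 - 1) * q + d < (n + 1) * K + (n ^ 2 - 1)) ∨
    (0 < K ∧ 4 * d * q ≤ K ^ 2)

theorem cond_zero {d q : ℕ} (h : Cond 0 d q) : q = 0 := by
  rcases h with h | ⟨n, hn, h⟩ | ⟨h, _⟩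
  · omega
  · by_contra hq
    have h1 : 1 ≤ q := Nat.one_le_iff_ne_zero.2 hq
    have h2 : (n ^ 2 - 1) * 1 ≤ (n ^ 2 - 1) * q := Nat.mul_le_mul_left _ h1
    omega
  · omega

theorem hasScheme_one {V : Type} (G : SimpleGraph V) (v : V) : HasScheme G (0 + 1) := by
  have hsub : ∀ i j : Fin (0 + 1), i = j := by decide
  refine ⟨fun _ => {v}, fun _ => v, fun _ _ => SimpleGraph.Walk.nil, ?_, ?_, ?_, ?_, ?_⟩
  · intro i
    exact Set.mem_singleton v
  · intro i j hij
    exact absurd (hsub i j) hij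
  · intro i j _
    exact hsub i j
  · intro i j
    refine ⟨SimpleGraph.Walk.IsPath.nil, ?_⟩
    intro u hu
    rw [SimpleGraph.Walk.support_nil, List.mem_singleton] at hu
    left
    exact hu
  · intro i j h l hih
    exact absurd (hsub i h) hih

theorem critical_vertex {V : Type} [Finite V] (G : SimpleGraph V) (K d q : ℕ) (hc : Cond K d q)
    (W : Set V) (v : V) (h1 : ¬ (G.induce W).Colorable K)
    (h2 : (G.induce (W \ {v})).Colorable K) (h3 : {w ∈ W | G.Adj v w}.ncard ≤ d) :
    HasScheme G (q + 1) := by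
  classical
  have _ := Fintype.ofFinite V
  rcases Nat.eq_zero_or_pos K with rfl | hK
  · obtain rfl := cond_zero hc
    exact hasScheme_one G v
  let Z : Finset V := (W \ {v}).toFinset
  let X : Finset V := Z.filter (fun w => G.Adj v w)
  have hvZ : v ∉ Z := by
    intro h
    rw [Set.mem_toFinset] at h
    exact h.2 rfl
  have hXd : X.card ≤ d := by
    refine le_trans ?_ h3
    rw [Set.ncard_eq_toFinset_card']
    apply Finset.card_le_card
    intro w hw
    rw [Finset.mem_filter, Set.mem_toFinset] at hw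
    rw [Set.mem_toFinset]
    exact ⟨hw.1.1, hw.2⟩
  refine main_aux (K := K) G Z X (Finset.filter_subset _ _) v hvZ
    (fun x hx => (Finset.mem_filter.1 hx).2) d q hXd ?_ ?_ hc
  · obtain ⟨C⟩ := h2
    refine ⟨fun u => if h : u ∈ W \ {v} then C ⟨u, h⟩ else ⟨0, hK⟩, ?_⟩
    intro a ha b hb hab
    rw [Set.mem_toFinset] at ha hb
    beta_reduce
    rw [dif_pos ha, dif_pos hb]
    exact C.valid (v := ⟨a, ha⟩) (w := ⟨b, hb⟩) hab
  · intro c hcp i
    by_contra hno
    push Not at hno
    apply h1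
    refine ⟨SimpleGraph.Coloring.mk (fun u : W => if (u : V) = v then i else c u) ?_⟩
    intro a b hab
    have hab' : G.Adj (a : V) (b : V) := hab
    have hne : (a : V) ≠ b := hab'.ne
    by_cases ha : (a : V) = v
    · have hb : (b : V) ≠ v := fun h => hne (ha.trans h.symm)
      rw [if_pos ha, if_neg hb]
      intro h
      refine hno b ?_ h.symm
      rw [Finset.mem_filter, Set.mem_toFinset]
      exact ⟨⟨b.2, hb⟩, ha ▸ hab'⟩
    · rw [if_neg ha]
      by_cases hb : (b : V) = v
      · rw [if_pos hb]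
        intro h
        refine hno a ?_ h
        rw [Finset.mem_filter, Set.mem_toFinset]
        exact ⟨⟨a.2, ha⟩, hb ▸ hab'.symm⟩
      · rw [if_neg hb]
        apply hcp
        · rw [Set.mem_toFinset]
          exact ⟨a.2, ha⟩
        · rw [Set.mem_toFinset]
          exact ⟨b.2, hb⟩
        · exact hab'

theorem degenerate {V : Type} [Finite V] (G : SimpleGraph V) (K d q : ℕ) (hc : Cond K d q)
    (h1 : ¬ G.Colorable K) (h2 : ∀ U : Set V, U.Nonempty → ∃ u ∈ U, {w ∈ U | G.Adj u w}.ncard ≤ d) :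
    HasScheme G (q + 1) := by
  classical
  have hex : ∃ n, ∃ W : Set V, W.ncard = n ∧ ¬ (G.induce W).Colorable K := by
    refine ⟨_, Set.univ, rfl, ?_⟩
    intro h
    apply h1
    obtain ⟨C⟩ := h
    exact ⟨SimpleGraph.Coloring.mk (fun u => C ⟨u, Set.mem_univ u⟩) (fun {a b} hab =>
      C.valid (v := ⟨a, Set.mem_univ a⟩) (w := ⟨b, Set.mem_univ b⟩) hab)⟩
  obtain ⟨W, hW, hWc⟩ := Nat.find_spec hex
  have hne : W.Nonempty := by
    rw [Set.nonempty_iff_ne_empty]
    rintro rfl
    apply hWc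
    refine ⟨SimpleGraph.Coloring.mk (fun u => absurd u.2 (Set.notMem_empty _)) ?_⟩
    intro a
    exact absurd a.2 (Set.notMem_empty _)
  obtain ⟨v, hv, hvd⟩ := h2 W hne
  refine critical_vertex G K d q hc W v hWc ?_ hvd
  by_contra hcon
  refine Nat.find_min hex (m := (W \ {v}).ncard) ?_ ⟨W \ {v}, rfl, hcon⟩
  rw [← hW]
  exact Set.ncard_sdiff_singleton_lt_of_mem hv (Set.toFinite W)

end Pool.Agent.Helper54.Scheme
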